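import Pool.Agent.R499.HT.Stm

/-!
# HT-Q: return probabilities of the walk with steps `(±1, ±1, ±1, ±1)`
-/

set_option autoImplicit false

namespace Pool.Agent.R281.HT

open Pool.Agent.R499.HT

/-- the simple random walk on `ℤ` -/
noncomputable def b : ℕ → ℤ → ℝ
  | 0 => fun z => if z = 0 then 1 else 0
  | k + 1 => fun z => (b k (z - 1) + b k (z + 1)) / 2

lemma b_zero (z : ℤ) : b 0 z = if z = 0 then 1 else 0 := rfl

lemma b_succ (k : ℕ) (z : ℤ) : b (k + 1) z = (b k (z - 1) + b k (z + 1)) / 2 := rfl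

lemma q_zero (z : Z4) : q 0 z = if z = 0 then 1 else 0 := rfl

lemma q_succ (k : ℕ) (z : Z4) : q (k + 1) z = (∑ s : Fin 4 → Bool, q k (z - st s)) / 16 := rfl

lemma q_prod (k : ℕ) : ∀ z : Z4, q k z = ∏ i, b k (z i) := by
  induction k with
  | zero =>
    intro z
    rw [q_zero]
    simp only [b_zero]
    by_cases h : z = 0
    · rw [if_pos h, h]
      simp
    · rw [if_neg h]
      obtain ⟨i, hi⟩ := Function.ne_iff.1 h
      rw [Finset.prod_eq_zero (Finset.mem_univ i)]
      rw [if_neg]
      exact hi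
  | succ k ih =>
    intro z
    rw [q_succ]
    have h1 : ∀ s : Fin 4 → Bool, q k (z - st s) = ∏ i, b k (z i - (if s i then 1 else -1)) := by
      intro s
      rw [ih]
      rfl
    simp_rw [h1]
    have h2 : ∑ s : Fin 4 → Bool, ∏ i, b k (z i - (if s i then 1 else -1)) =
        ∏ i, ∑ t : Bool, b k (z i - (if t then 1 else -1)) := by
      rw [Finset.prod_univ_sum, Fintype.piFinset_univ]
    rw [h2]
    have h3 : ∀ i, ∑ t : Bool, b k (z i - (if t then 1 else -1)) = 2 * b (k + 1) (z i) := by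
      intro i
      rw [b_succ, Fintype.sum_bool]
      simp only [if_true]
      rw [show z i - (if false = true then (1:ℤ) else -1) = z i + 1 by simp]
      ring
    simp_rw [h3]
    rw [Finset.prod_mul_distrib]
    simp
    ring

lemma b_neg (k : ℕ) : ∀ z : ℤ, z < -(k : ℤ) → b k z = 0 := by
  induction k with
  | zero =>
    intro z hz
    rw [b_zero, if_neg]
    intro h
    simp at hz
    omega
  | succ k ih =>
    intro z hz
    push_cast at hz
    rw [b_succ, ih _ (by omega), ih _ (by omega)]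
    simp

lemma b_choose (k : ℕ) : ∀ j : ℕ, b k (2 * (j : ℤ) - k) = (k.choose j : ℝ) / 2 ^ k := by
  induction k with
  | zero =>
    intro j
    rw [b_zero]
    cases j with
    | zero => simp
    | succ j =>
      rw [if_neg (by push_cast; omega)]
      simp
  | succ k ih =>
    intro j
    rw [b_succ]
    cases j with
    | zero =>
      rw [b_neg k _ (by push_cast; omega)]
      have h := ih 0
      rw [show (2 * ((0:ℕ):ℤ) - ((k + 1 : ℕ) : ℤ) + 1) = 2 * ((0:ℕ):ℤ) - k by push_cast; ring, h]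
      simp only [Nat.choose_zero_right, Nat.cast_one]
      rw [pow_succ]
      field_simp
      ring
    | succ j =>
      rw [show (2 * ((j + 1 : ℕ):ℤ) - ((k + 1 : ℕ) : ℤ) - 1) = 2 * (j : ℤ) - k by push_cast; ring,
        show (2 * ((j + 1 : ℕ):ℤ) - ((k + 1 : ℕ) : ℤ) + 1) = 2 * ((j + 1 : ℕ) : ℤ) - k by push_cast; ring,
        ih, ih, Nat.choose_succ_succ, pow_succ]
      push_cast
      field_simp

theorem s_Q : S_Q := by
  intro k
  rw [q_prod]
  have h := b_choose (2 * k) k
  rw [show (2 * (k : ℤ) - ((2 * k : ℕ) : ℤ)) = 0 by push_cast; ring] at h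
  have h2 : ∀ i : Fin 4, b (2 * k) ((0 : Z4) i) = (Nat.centralBinom k : ℝ) / 4 ^ k := by
    intro i
    rw [Pi.zero_apply, h, Nat.centralBinom_eq_two_mul_choose, pow_mul]
    norm_num
  simp_rw [h2]
  simp [div_pow]

end Pool.Agent.R281.HT
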