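import Pool.Agent.R499.HT.Stm

/-!
# HT-RNG: the expected number of visited sites grows linearly
-/

set_option autoImplicit false

namespace Pool.Agent.R281.HT.Rng

open Pool.Agent.R499.HT

lemma q_zero (z : Z4) : q 0 z = if z = 0 then 1 else 0 := rfl

lemma q_succ (k : ℕ) (z : Z4) : q (k + 1) z = (∑ s : Fin 4 → Bool, q k (z - st s)) / 16 := rfl

lemma q_nonneg (k : ℕ) : ∀ z : Z4, 0 ≤ q k z := by
  induction k with
  | zero =>
    intro z
    rw [q_zero]
    split_ifs <;> norm_num
  | succ k ih =>
    intro z
    rw [q_succ]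
    apply div_nonneg (Finset.sum_nonneg fun s _ => ih _) (by norm_num)

/-- the Green function -/
noncomputable def G (n : ℕ) (z : Z4) : ℝ := ∑ i ∈ Finset.range n, q (2 * i + 1) z

lemma G_nonneg (n : ℕ) (z : Z4) : 0 ≤ G n z := Finset.sum_nonneg fun i _ => q_nonneg _ _

lemma card16 : (Finset.univ : Finset (Fin 4 → Bool)).card = 16 := by
  simp

lemma G_step (n : ℕ) (z : Z4) :
    (∑ s : Fin 4 → Bool, ∑ s' : Fin 4 → Bool,
      ((if z = st s then (1 : ℝ) else 0) + G n (z - st s - st s'))) / 256 = G (n + 1) z := by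
  have h1 : G (n + 1) z = q 1 z + ∑ i ∈ Finset.range n, q (2 * i + 3) z := by
    unfold G
    rw [Finset.sum_range_succ', add_comm]
    rfl
  have h2 : q 1 z = (∑ s : Fin 4 → Bool, (if z = st s then (1 : ℝ) else 0)) / 16 := by
    rw [q_succ]
    congr 1
    apply Finset.sum_congr rfl
    intro s _
    rw [q_zero]
    simp only [sub_eq_zero]
  have h3 : ∀ i, q (2 * i + 3) z = (∑ s : Fin 4 → Bool, ∑ s' : Fin 4 → Bool,
      q (2 * i + 1) (z - st s - st s')) / 256 := by
    intro i
    rw [show 2 * i + 3 = (2 * i + 1 + 1) + 1 by ring, q_succ]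
    simp_rw [q_succ (2 * i + 1)]
    rw [← Finset.sum_div, div_div]
    norm_num
  rw [h1, h2]
  simp_rw [h3]
  have hcomm : ∑ i ∈ Finset.range n, ∑ s : Fin 4 → Bool, ∑ s' : Fin 4 → Bool,
      q (2 * i + 1) (z - st s - st s') = ∑ s : Fin 4 → Bool, ∑ i ∈ Finset.range n,
        ∑ s' : Fin 4 → Bool, q (2 * i + 1) (z - st s - st s') := Finset.sum_comm
  rw [← Finset.sum_div, hcomm]
  have h4 : ∑ s : Fin 4 → Bool, ∑ s' : Fin 4 → Bool,
      ((if z = st s then (1 : ℝ) else 0) + G n (z - st s - st s')) =
      16 * (∑ s : Fin 4 → Bool, (if z = st s then (1 : ℝ) else 0)) +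
        ∑ s : Fin 4 → Bool, ∑ i ∈ Finset.range n, ∑ s' : Fin 4 → Bool,
          q (2 * i + 1) (z - st s - st s') := by
    rw [Finset.mul_sum, ← Finset.sum_add_distrib]
    apply Finset.sum_congr rfl
    intro s _
    rw [Finset.sum_add_distrib, Finset.sum_const, card16, nsmul_eq_mul]
    unfold G
    rw [Finset.sum_comm]
    norm_num
  rw [h4]
  ring

lemma G_ret (hQ : S_Q) (hB : S_BIN) (n : ℕ) :
    (∑ s' : Fin 4 → Bool, G n (-st s')) / 16 ≤ 1 / 4 := by
  refine le_trans (le_of_eq ?_) (hB n)
  unfold G
  rw [Finset.sum_comm, Finset.sum_div]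
  apply Finset.sum_congr rfl
  intro i _
  rw [← hQ (i + 1), show 2 * (i + 1) = (2 * i + 1) + 1 by ring, q_succ]
  simp only [zero_sub]

lemma claim (hQ : S_Q) (hB : S_BIN) (n : ℕ) : ∀ (R : Finset Z4) (x : Z4),
    (R.card : ℝ) - ∑ y ∈ R, G n (y - x) + 3 / 4 * n ≤ (TT^[n] (fun R _ => (R.card : ℝ))) R x := by
  classical
  induction n with
  | zero =>
    intro R x
    simp [G]
  | succ n ih =>
    intro R x
    rw [Function.iterate_succ_apply']
    generalize TT^[n] (fun R _ => (R.card : ℝ)) = Ψ at ih ⊢
    unfold TT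
    have hterm : ∀ s s' : Fin 4 → Bool,
        (R.card : ℝ) + 1 + 3 / 4 * n - (∑ y ∈ R, ((if y - x = st s then (1 : ℝ) else 0) +
          G n (y - x - st s - st s'))) - G n (-st s') ≤
        Ψ (insert (x + st s) R) (x + st s + st s') := by
      intro s s'
      refine le_trans ?_ (ih _ _)
      have hsum : ∑ y ∈ R, G n (y - x - st s - st s') = ∑ y ∈ R, G n (y - (x + st s + st s')) := by
        apply Finset.sum_congr rfl
        intro y _
        congr 1
        abel
      rw [Finset.sum_add_distrib, hsum]
      by_cases ha : x + st s ∈ R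
      · rw [Finset.insert_eq_of_mem ha]
        have h1 : ∑ y ∈ R, (if y - x = st s then (1 : ℝ) else 0) = 1 := by
          rw [Finset.sum_eq_single (x + st s)]
          · rw [if_pos (by abel)]
          · intro y _ hy
            rw [if_neg]
            intro h
            apply hy
            rw [← h]
            abel
          · intro h
            exact absurd ha h
        rw [h1]
        have h2 := G_nonneg n (-st s')
        linarith
      · rw [Finset.card_insert_of_notMem ha, Finset.sum_insert ha]
        have h1 : ∑ y ∈ R, (if y - x = st s then (1 : ℝ) else 0) = 0 := by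
          apply Finset.sum_eq_zero
          intro y hy
          rw [if_neg]
          intro h
          apply ha
          rw [← h]
          rw [show x + (y - x) = y by abel]
          exact hy
        rw [h1, show x + st s - (x + st s + st s') = -st s' by abel]
        push_cast
        linarith
    have hsum : ∑ s : Fin 4 → Bool, ∑ s' : Fin 4 → Bool,
        ((R.card : ℝ) + 1 + 3 / 4 * n - (∑ y ∈ R, ((if y - x = st s then (1 : ℝ) else 0) +
          G n (y - x - st s - st s'))) - G n (-st s')) =
        256 * ((R.card : ℝ) + 1 + 3 / 4 * n) - 256 * (∑ y ∈ R, G (n + 1) (y - x)) -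
          256 * ((∑ s' : Fin 4 → Bool, G n (-st s')) / 16) := by
      have e1 : ∀ y : Z4, 256 * G (n + 1) (y - x) = ∑ s : Fin 4 → Bool, ∑ s' : Fin 4 → Bool,
          ((if y - x = st s then (1 : ℝ) else 0) + G n (y - x - st s - st s')) := by
        intro y
        rw [← G_step]
        ring
      rw [Finset.mul_sum]
      simp_rw [e1]
      simp_rw [Finset.sum_sub_distrib]
      congr 1
      · congr 1
        · simp only [Finset.sum_const, card16, nsmul_eq_mul]
          push_cast
          ring
        · symm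
          rw [Finset.sum_comm]
          apply Finset.sum_congr rfl
          intro s _
          rw [Finset.sum_comm]
      · simp only [Finset.sum_const, card16, nsmul_eq_mul]
        push_cast
        ring
    have h5 : ∑ s : Fin 4 → Bool, ∑ s' : Fin 4 → Bool,
        ((R.card : ℝ) + 1 + 3 / 4 * n - (∑ y ∈ R, ((if y - x = st s then (1 : ℝ) else 0) +
          G n (y - x - st s - st s'))) - G n (-st s')) ≤
        ∑ s : Fin 4 → Bool, ∑ s' : Fin 4 → Bool,
          Ψ (insert (x + st s) R) (x + st s + st s') :=
      Finset.sum_le_sum fun s _ => Finset.sum_le_sum fun s' _ => hterm s s'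
    rw [hsum] at h5
    have h6 := G_ret hQ hB n
    rw [le_div_iff₀ (by norm_num)]
    push_cast
    linarith

theorem s_RNG (hQ : S_Q) (hB : S_BIN) : S_RNG := by
  intro n
  have h := claim hQ hB n ∅ 0
  simpa using h

end Pool.Agent.R281.HT.Rng
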